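import Pool.Agent.W2helper31.GP.Stm5

/-!
# Project GP5, piece FC: two Fourier coefficients of `log |2 cos θ|`
-/

set_option autoImplicit false

open MeasureTheory Set

namespace Pool.Agent.W2helper54.GP5

/-- the function -/
noncomputable def L (x : ℝ) : ℝ := Real.log (2 * Real.cos x)

lemma L_int (a b : ℝ) : IntervalIntegrable L volume a b := by
  have h : IntervalIntegrable (Real.log ∘ fun x => 2 * Real.cos x) volume a b := by
    apply MeromorphicOn.intervalIntegrable_log
    intro x _
    exact (analyticAt_const.mul Real.analyticAt_cos).meromorphicAt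
  exact h

lemma zeros_countable : {x : ℝ | Real.cos x = 0}.Countable := by
  have : {x : ℝ | Real.cos x = 0} ⊆ Set.range (fun k : ℤ => (2 * (k : ℝ) + 1) * Real.pi / 2) := by
    intro x hx
    obtain ⟨k, hk⟩ := Real.cos_eq_zero_iff.1 hx
    exact ⟨k, hk.symm⟩
  exact (Set.countable_range _).mono this

/-- FTC -/
lemma ftc (F f : ℝ → ℝ) (hF : Continuous F) (hd : ∀ x, Real.cos x ≠ 0 → HasDerivAt F (f x) x)
    (hf : IntervalIntegrable f volume (-Real.pi) Real.pi) :
    ∫ x in (-Real.pi)..Real.pi, f x = F Real.pi - F (-Real.pi) :=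
  MeasureTheory.integral_eq_of_hasDerivAt_off_countable F f zeros_countable hF.continuousOn
    (fun x hx => hd x hx.2) hf

lemma d_xlog (x : ℝ) (hx : Real.cos x ≠ 0) :
    HasDerivAt (fun x => (2 * Real.cos x) * Real.log (2 * Real.cos x))
      ((-2 * Real.sin x) * (L x + 1)) x := by
  have h1 : HasDerivAt (fun x => 2 * Real.cos x) (2 * (-Real.sin x)) x :=
    (Real.hasDerivAt_cos x).const_mul 2
  have hne : 2 * Real.cos x ≠ 0 := mul_ne_zero two_ne_zero hx
  have h2 := (Real.hasDerivAt_mul_log hne).comp x h1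
  refine h2.congr_deriv ?_
  simp only [L]
  ring

lemma c_xlog : Continuous (fun x => (2 * Real.cos x) * Real.log (2 * Real.cos x)) :=
  Real.continuous_mul_log.comp (continuous_const.mul Real.continuous_cos)

lemma int1 : ∫ x in (-Real.pi)..Real.pi, L x * Real.cos (2 * x) = Real.pi := by
  rw [ftc (fun x => Real.sin x * ((2 * Real.cos x) * Real.log (2 * Real.cos x)) / 2 +
    (x - Real.sin x * Real.cos x) / 2) (fun x => L x * Real.cos (2 * x))]
  · simp only [Real.sin_pi, Real.sin_neg, Real.cos_neg]
    ring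
  · have := c_xlog
    fun_prop
  · intro x hx
    have h1 := (((Real.hasDerivAt_sin x).mul (d_xlog x hx)).div_const 2).add
      (((hasDerivAt_id x).sub ((Real.hasDerivAt_sin x).mul (Real.hasDerivAt_cos x))).div_const 2)
    refine h1.congr_deriv ?_
    rw [Real.cos_two_mul]
    have h2 := Real.sin_sq_add_cos_sq x
    have h3 : Real.sin x * Real.sin x = 1 - Real.cos x ^ 2 := by nlinarith
    have e : Real.log (2 * Real.cos x) = L x := rfl
    rw [e]
    linear_combination (-L x - 1 + 1 / 2) * h3
  · exact (L_int _ _).mul_continuousOn (by fun_prop)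

lemma int3 : ∫ x in (-Real.pi)..Real.pi, L x * Real.cos (6 * x) = Real.pi / 3 := by
  rw [ftc (fun x => Real.sin x * (16 * Real.cos x ^ 4 - 16 * Real.cos x ^ 2 + 3) *
      ((2 * Real.cos x) * Real.log (2 * Real.cos x)) / 6 +
    (x - 5 * (Real.sin x * Real.cos x) + 28 / 3 * (Real.sin x * Real.cos x ^ 3) -
      16 / 3 * (Real.sin x * Real.cos x ^ 5)) / 6) (fun x => L x * Real.cos (6 * x))]
  · simp only [Real.sin_pi, Real.sin_neg, Real.cos_neg]
    ring
  · have := c_xlog
    fun_prop
  · intro x hx
    have hs := Real.hasDerivAt_sin x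
    have hc := Real.hasDerivAt_cos x
    have h1 := ((hs.mul ((((hc.pow 4).const_mul 16).sub ((hc.pow 2).const_mul 16)).add_const 3)).mul
      (d_xlog x hx)).div_const 6
    have h2 := (((((hasDerivAt_id x).sub ((hs.mul hc).const_mul 5)).add
      ((hs.mul (hc.pow 3)).const_mul (28 / 3))).sub ((hs.mul (hc.pow 5)).const_mul (16 / 3)))).div_const 6
    refine (h1.add h2).congr_deriv ?_
    have e6 : Real.cos (6 * x) = 32 * Real.cos x ^ 6 - 48 * Real.cos x ^ 4 + 18 * Real.cos x ^ 2 - 1 := by
      rw [show 6 * x = 3 * (2 * x) by ring, Real.cos_three_mul, Real.cos_two_mul]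
      ring
    rw [e6]
    have h3 : Real.sin x ^ 2 = 1 - Real.cos x ^ 2 := by
      have := Real.sin_sq_add_cos_sq x
      linarith
    have e : Real.log (2 * Real.cos x) = L x := rfl
    simp only [e, Pi.mul_apply, Pi.pow_apply, Pi.sub_apply, Pi.add_apply]
    ring_nf
    simp only [h3]
    ring
  · exact (L_int _ _).mul_continuousOn (by fun_prop)

lemma odd0 (k : ℝ) : ∫ x in (-Real.pi)..Real.pi, L x * Real.sin (k * x) = 0 := by
  have h := intervalIntegral.integral_comp_neg (a := -Real.pi) (b := Real.pi)
    (fun x => L x * Real.sin (k * x))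
  rw [neg_neg] at h
  have h2 : (∫ x in (-Real.pi)..Real.pi, L (-x) * Real.sin (k * -x)) =
      -∫ x in (-Real.pi)..Real.pi, L x * Real.sin (k * x) := by
    rw [← intervalIntegral.integral_neg]
    refine intervalIntegral.integral_congr fun x _ => ?_
    simp only [L, Real.cos_neg, mul_neg, Real.sin_neg]
  rw [h2] at h
  linarith

lemma gen (k v : ℝ) (n : ℕ) (hn : k = n)
    (h : ∫ x in (-Real.pi)..Real.pi, L x * Real.cos (k * x) = v) (a g : ℝ) :
    ∫ θ in (-Real.pi)..Real.pi, Real.log |2 * Real.cos (θ - a)| * Real.cos (k * θ - g) =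
      v * Real.cos (k * a - g) := by
  have e1 : ∫ θ in (-Real.pi)..Real.pi, Real.log |2 * Real.cos (θ - a)| * Real.cos (k * θ - g) =
      ∫ x in (-Real.pi - a)..(Real.pi - a), L x * Real.cos (k * x + (k * a - g)) := by
    rw [← intervalIntegral.integral_comp_sub_right
      (fun x => L x * Real.cos (k * x + (k * a - g))) a]
    refine intervalIntegral.integral_congr fun θ _ => ?_
    simp only [L, Real.log_abs]
    congr 2
    ring
  have hp : Function.Periodic (fun x => L x * Real.cos (k * x + (k * a - g))) (2 * Real.pi) := by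
    intro x
    simp only [L, Real.cos_add_two_pi]
    congr 1
    rw [show k * (x + 2 * Real.pi) + (k * a - g) = (k * x + (k * a - g)) + (n : ℝ) * (2 * Real.pi) by
      rw [hn]; ring]
    exact Real.cos_add_nat_mul_two_pi _ _
  have e2 := hp.intervalIntegral_add_eq (-Real.pi - a) (-Real.pi)
  rw [show -Real.pi - a + 2 * Real.pi = Real.pi - a by ring,
    show -Real.pi + 2 * Real.pi = Real.pi by ring] at e2
  rw [e1, e2]
  have e3 : (fun x => L x * Real.cos (k * x + (k * a - g))) = fun x =>
      Real.cos (k * a - g) * (L x * Real.cos (k * x)) -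
        Real.sin (k * a - g) * (L x * Real.sin (k * x)) := by
    funext x
    rw [Real.cos_add]
    ring
  rw [e3, intervalIntegral.integral_sub, intervalIntegral.integral_const_mul,
    intervalIntegral.integral_const_mul, h, odd0]
  · ring
  · exact ((L_int _ _).mul_continuousOn (by fun_prop)).const_mul _
  · exact ((L_int _ _).mul_continuousOn (by fun_prop)).const_mul _

theorem p_fc : Pool.Agent.W2helper31.GP.P_FC := by
  intro a g
  exact ⟨gen 2 _ 2 (by norm_num) int1 a g, gen 6 _ 6 (by norm_num) int3 a g⟩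

end Pool.Agent.W2helper54.GP5
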