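import Pool.Agent.W2helper31.GP.Stm5

/-!
# Project GP5, piece TRIG3
-/

set_option autoImplicit false

open MeasureTheory Set

namespace Pool.Agent.W2helper54.GP5.T

open Pool.Agent.W2helper31.GP

lemma d_sin (k c θ : ℝ) : HasDerivAt (fun θ => Real.sin (k * θ - c)) (Real.cos (k * θ - c) * k) θ := by
  have h : HasDerivAt (fun θ => k * θ - c) k θ := by
    simpa using ((hasDerivAt_id θ).const_mul k).sub_const c
  exact (Real.hasDerivAt_sin _).comp θ h

lemma sin_per (n : ℕ) (c : ℝ) :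
    Real.sin ((2 * n : ℝ) * Real.pi - c) = Real.sin ((2 * n : ℝ) * (-Real.pi) - c) := by
  have h : (2 * n : ℝ) * Real.pi - c = ((2 * n : ℝ) * (-Real.pi) - c) + ((2 * n : ℕ) : ℝ) * (2 * Real.pi) := by
    push_cast
    ring
  rw [h]
  exact Real.sin_add_nat_mul_two_pi _ _

lemma sq_int (A B g h : ℝ) :
    ∫ θ in (-Real.pi)..Real.pi, (A * Real.cos (2 * θ - g) + B * Real.cos (6 * θ - h)) ^ 2 =
      Real.pi * (A ^ 2 + B ^ 2) := by
  have hd : ∀ θ ∈ Set.uIcc (-Real.pi) Real.pi, HasDerivAt (fun θ => (A ^ 2 + B ^ 2) / 2 * θ +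
      A ^ 2 / 8 * Real.sin (4 * θ - 2 * g) + B ^ 2 / 24 * Real.sin (12 * θ - 2 * h) +
      A * B * (1 / 8 * Real.sin (8 * θ - (g + h)) + 1 / 4 * Real.sin (4 * θ - (h - g))))
      ((A * Real.cos (2 * θ - g) + B * Real.cos (6 * θ - h)) ^ 2) θ := by
    intro θ _
    have h1 := (((((hasDerivAt_id θ).const_mul ((A ^ 2 + B ^ 2) / 2)).add
      ((d_sin 4 (2 * g) θ).const_mul (A ^ 2 / 8))).add
      ((d_sin 12 (2 * h) θ).const_mul (B ^ 2 / 24))).add
      ((((d_sin 8 (g + h) θ).const_mul (1 / 8)).add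
        ((d_sin 4 (h - g) θ).const_mul (1 / 4))).const_mul (A * B)))
    refine h1.congr_deriv ?_
    have e1 : Real.cos (4 * θ - 2 * g) = 2 * Real.cos (2 * θ - g) ^ 2 - 1 := by
      rw [← Real.cos_two_mul]; congr 1; ring
    have e2 : Real.cos (12 * θ - 2 * h) = 2 * Real.cos (6 * θ - h) ^ 2 - 1 := by
      rw [← Real.cos_two_mul]; congr 1; ring
    have e3 : Real.cos (8 * θ - (g + h)) + Real.cos (4 * θ - (h - g)) =
        2 * Real.cos (6 * θ - h) * Real.cos (2 * θ - g) := by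
      rw [show 8 * θ - (g + h) = (6 * θ - h) + (2 * θ - g) by ring,
        show 4 * θ - (h - g) = (6 * θ - h) - (2 * θ - g) by ring, Real.cos_add (6 * θ - h) (2 * θ - g),
        Real.cos_sub (6 * θ - h) (2 * θ - g)]
      ring
    rw [e1, e2]
    linear_combination (A * B) * e3
  rw [intervalIntegral.integral_eq_sub_of_hasDerivAt hd
    (Continuous.intervalIntegrable (by fun_prop) _ _)]
  have s4 := sin_per 2 (2 * g)
  have s12 := sin_per 6 (2 * h)
  have s8 := sin_per 4 (g + h)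
  have s4' := sin_per 2 (h - g)
  norm_num at s4 s12 s8 s4'
  rw [show (4 : ℝ) * -Real.pi = -(4 * Real.pi) by ring, show (12 : ℝ) * -Real.pi = -(12 * Real.pi) by ring,
    show (8 : ℝ) * -Real.pi = -(8 * Real.pi) by ring, s4, s12, s8, s4']
  ring

lemma zeros (a : ℝ) : {x : ℝ | Real.cos (x - a) = 0}.Countable := by
  have : {x : ℝ | Real.cos (x - a) = 0} ⊆
      Set.range (fun k : ℤ => (2 * (k : ℝ) + 1) * Real.pi / 2 + a) := by
    intro x hx
    obtain ⟨k, hk⟩ := Real.cos_eq_zero_iff.1 hx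
    exact ⟨k, by simp only; rw [← hk]; ring⟩
  exact (Set.countable_range _).mono this

/-- the main estimate -/
lemma main (h0 : P_FC0) (h1 : P_FC) (h3 : P_TAN) (a : Fin 3 → ℝ) (p A B g h : ℝ) (hp : 0 < p)
    (hp1 : p ≤ 1) (hA : 0 ≤ A) (hB : 0 ≤ B) (hAB : A + B ≤ 1 / 2) :
    1 + p ^ 2 * (A / 2 * ∑ i, Real.cos (2 * a i - g) + B / 6 * ∑ i, Real.cos (6 * a i - h) -
      (A ^ 2 + B ^ 2) / 3) ≤
      1 / (2 * Real.pi) * ∫ θ in (-Real.pi)..Real.pi, (∏ i, |2 * Real.cos (θ - a i)|) ^ p := by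
  have hpi := Real.pi_pos
  set f : ℝ → ℝ := fun θ => A * Real.cos (2 * θ - g) + B * Real.cos (6 * θ - h) with hf
  have hfc : Continuous f := by fun_prop
  have hf2 : ∀ θ, |f θ| ≤ 1 / 2 := by
    intro θ
    have c1 := Real.abs_cos_le_one (2 * θ - g)
    have c2 := Real.abs_cos_le_one (6 * θ - h)
    calc |f θ| ≤ |A * Real.cos (2 * θ - g)| + |B * Real.cos (6 * θ - h)| := abs_add_le _ _
      _ = A * |Real.cos (2 * θ - g)| + B * |Real.cos (6 * θ - h)| := by
        rw [abs_mul, abs_mul, abs_of_nonneg hA, abs_of_nonneg hB]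
      _ ≤ A * 1 + B * 1 := add_le_add (mul_le_mul_of_nonneg_left c1 hA)
        (mul_le_mul_of_nonneg_left c2 hB)
      _ ≤ 1 / 2 := by linarith
  -- the left side
  set ell : Fin 3 → ℝ → ℝ := fun i θ => Real.log |2 * Real.cos (θ - a i)| with hell
  have hi0 : ∀ i, IntervalIntegrable (ell i) volume (-Real.pi) Real.pi := fun i => (h0 (a i)).1
  set G : ℝ → ℝ := fun θ => (1 - p ^ 2 * (2 / 3) * f θ ^ 2) + ∑ i, (p * ell i θ +
    (p ^ 2 * A * (ell i θ * Real.cos (2 * θ - g)) + p ^ 2 * B * (ell i θ * Real.cos (6 * θ - h)))) with hG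
  have hi1 : ∀ i, IntervalIntegrable (fun θ => ell i θ * Real.cos (2 * θ - g)) volume
      (-Real.pi) Real.pi := fun i => (hi0 i).mul_continuousOn (by fun_prop)
  have hi2 : ∀ i, IntervalIntegrable (fun θ => ell i θ * Real.cos (6 * θ - h)) volume
      (-Real.pi) Real.pi := fun i => (hi0 i).mul_continuousOn (by fun_prop)
  have hi3 : ∀ i, IntervalIntegrable (fun θ => p * ell i θ +
    (p ^ 2 * A * (ell i θ * Real.cos (2 * θ - g)) + p ^ 2 * B * (ell i θ * Real.cos (6 * θ - h))))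
      volume (-Real.pi) Real.pi := fun i =>
    ((hi0 i).const_mul _).add (((hi1 i).const_mul _).add ((hi2 i).const_mul _))
  have hc1 : Continuous (fun θ => 1 - p ^ 2 * (2 / 3) * f θ ^ 2) := by fun_prop
  have hiS : IntervalIntegrable (fun θ => ∑ i, (p * ell i θ +
    (p ^ 2 * A * (ell i θ * Real.cos (2 * θ - g)) + p ^ 2 * B * (ell i θ * Real.cos (6 * θ - h)))))
      volume (-Real.pi) Real.pi := by
    have := IntervalIntegrable.sum (Finset.univ : Finset (Fin 3)) (f := fun i θ => p * ell i θ +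
      (p ^ 2 * A * (ell i θ * Real.cos (2 * θ - g)) + p ^ 2 * B * (ell i θ * Real.cos (6 * θ - h))))
      (μ := volume) (a := -Real.pi) (b := Real.pi) (fun i _ => hi3 i)
    refine this.congr ?_
    exact fun θ _ => by rw [Finset.sum_apply]
  have hGi : IntervalIntegrable G volume (-Real.pi) Real.pi :=
    (hc1.intervalIntegrable _ _).add hiS
  have hRc : Continuous (fun θ => (∏ i, |2 * Real.cos (θ - a i)|) ^ p) := by
    refine Continuous.rpow_const ?_ fun θ => Or.inr hp.le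
    fun_prop
  have hmono : ∫ θ in (-Real.pi)..Real.pi, G θ ≤
      ∫ θ in (-Real.pi)..Real.pi, (∏ i, |2 * Real.cos (θ - a i)|) ^ p := by
    refine intervalIntegral.integral_mono_ae (by linarith) hGi (hRc.intervalIntegrable _ _) ?_
    have hz : (⋃ i : Fin 3, {x : ℝ | Real.cos (x - a i) = 0}).Countable :=
      Set.countable_iUnion fun i => zeros (a i)
    filter_upwards [hz.ae_notMem volume] with θ hθ
    have hne : ∀ i, |2 * Real.cos (θ - a i)| ≠ 0 := by
      intro i hi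
      apply hθ
      rw [Set.mem_iUnion]
      refine ⟨i, ?_⟩
      have := abs_eq_zero.1 hi
      have h2 := (mul_eq_zero.1 this).resolve_left two_ne_zero
      exact h2
    have hx : 0 < ∏ i, |2 * Real.cos (θ - a i)| :=
      Finset.prod_pos fun i _ => lt_of_le_of_ne (abs_nonneg _) (hne i).symm
    have hlog : Real.log (∏ i, |2 * Real.cos (θ - a i)|) = ∑ i, ell i θ :=
      Real.log_prod fun i _ => hne i
    have h4 := h3 p (f θ) _ hp hp1 (hf2 θ) hx
    rw [hlog] at h4
    refine le_trans (le_of_eq ?_) h4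
    simp only [hG, hf, Fin.sum_univ_three]
    ring
  have hval : ∫ θ in (-Real.pi)..Real.pi, G θ = 2 * Real.pi * (1 + p ^ 2 * (A / 2 *
      ∑ i, Real.cos (2 * a i - g) + B / 6 * ∑ i, Real.cos (6 * a i - h) - (A ^ 2 + B ^ 2) / 3)) := by
    have v1 : ∫ θ in (-Real.pi)..Real.pi, (1 - p ^ 2 * (2 / 3) * f θ ^ 2) =
        2 * Real.pi - p ^ 2 * (2 / 3) * (Real.pi * (A ^ 2 + B ^ 2)) := by
      rw [intervalIntegral.integral_sub intervalIntegrable_const
        (Continuous.intervalIntegrable (by fun_prop) _ _), intervalIntegral.integral_const_mul,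
        sq_int, intervalIntegral.integral_const, smul_eq_mul]
      ring
    have v2 : ∀ i, ∫ θ in (-Real.pi)..Real.pi, (p * ell i θ +
        (p ^ 2 * A * (ell i θ * Real.cos (2 * θ - g)) + p ^ 2 * B * (ell i θ * Real.cos (6 * θ - h)))) =
        p ^ 2 * A * (Real.pi * Real.cos (2 * a i - g)) +
          p ^ 2 * B * (Real.pi / 3 * Real.cos (6 * a i - h)) := by
      intro i
      rw [intervalIntegral.integral_add ((hi0 i).const_mul _)
        (((hi1 i).const_mul _).add ((hi2 i).const_mul _)),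
        intervalIntegral.integral_add ((hi1 i).const_mul _) ((hi2 i).const_mul _),
        intervalIntegral.integral_const_mul, intervalIntegral.integral_const_mul,
        intervalIntegral.integral_const_mul, (h0 (a i)).2, (h1 (a i) g).1, (h1 (a i) h).2]
      ring
    rw [hG, intervalIntegral.integral_add (hc1.intervalIntegrable _ _) hiS, v1,
      intervalIntegral.integral_finsetSum fun i _ => hi3 i, Finset.sum_congr rfl fun i _ => v2 i]
    simp only [Fin.sum_univ_three]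
    ring
  rw [hval] at hmono
  have h5 : 0 < 2 * Real.pi := by linarith
  rw [one_div, ← div_eq_inv_mul, le_div_iff₀ h5]
  linarith

theorem trig3 (h0 : P_FC0) (h1 : P_FC) (h2 : P_ALG3) (h3 : P_TAN) : P_TRIG3 := by
  intro a p hp hp1
  obtain ⟨g1, g3, s, hs, e1, e2, e3⟩ := h2 a
  have hp2 : 0 < p ^ 2 := by positivity
  rcases le_total s (3 / 5) with h | h
  · refine le_trans ?_ (main h0 h1 h3 a p (1 / 5) (3 / 10) g1 g3 hp hp1 (by norm_num) (by norm_num)
      (by norm_num))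
    rw [e1]
    have : 91 / 1000 ≤ (1 / 5 / 2 * s + 3 / 10 / 6 * ∑ i, Real.cos (6 * a i - g3) -
        ((1 / 5) ^ 2 + (3 / 10) ^ 2) / 3 : ℝ) := by
      have h6 : s ^ 3 ≤ 3 / 5 * s ^ 2 := by nlinarith [sq_nonneg s]
      nlinarith [sq_nonneg s]
    nlinarith
  · refine le_trans ?_ (main h0 h1 h3 a p (7 / 20) (3 / 20) g1 g3 hp hp1 (by norm_num) (by norm_num)
      (by norm_num))
    rw [e1]
    have : 91 / 1000 ≤ (7 / 20 / 2 * s + 3 / 20 / 6 * ∑ i, Real.cos (6 * a i - g3) -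
        ((7 / 20) ^ 2 + (3 / 20) ^ 2) / 3 : ℝ) := by
      rcases le_total s (4 / 5) with h7 | h7
      · have h6 : s ^ 3 ≤ 4 / 5 * s ^ 2 := by nlinarith [sq_nonneg s]
        nlinarith [sq_nonneg s, mul_nonneg (sub_nonneg.2 h) (sub_nonneg.2 h7)]
      · nlinarith
    nlinarith

end Pool.Agent.W2helper54.GP5.T
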